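import Pool.Agent.K.MP_b0ea37_nt.C3

namespace Pool.Agent.Results.MP_b0ea37_nt.AllDegrees

theorem result : ∀ n : ℕ, 5 ≤ n → ∃ c : ℝ, 0 < c ∧ ∃ C : ℝ, ∀ H : ℝ, 1 ≤ H →
    (Pool.Agent.VDW.N n H : ℝ) ≤ C * H ^ ((n : ℝ) - 1 - c) :=
  Pool.Agent.VW.main

end Pool.Agent.Results.MP_b0ea37_nt.AllDegrees
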