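import Pool.Agent.K.MP_b0ea37_nt.C5

namespace Pool.Agent.Results.MP_b0ea37_nt.LargeDegree

theorem result : ∃ n₀ : ℕ, ∀ n : ℕ, n₀ ≤ n → ∃ C : ℝ, ∀ H : ℝ, 1 ≤ H →
    (Pool.Agent.VDW.N n H : ℝ) ≤ C * H ^ ((n : ℝ) - 6 / 5) :=
  Pool.Agent.VDW.main

end Pool.Agent.Results.MP_b0ea37_nt.LargeDegree
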